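import Pool.Agent.H274Z.RW.Rand

set_option autoImplicit false

namespace Pool.Agent.H274Z.RW

open Finset
open Classical

/-- The simple graph underlying a multigraph with end maps `a`, `b`. -/
def XG {V E : Type} (a b : E → V) : SimpleGraph V :=
  SimpleGraph.fromRel (fun u v => ∃ e, a e = u ∧ b e = v)

lemma XG_adj {V E : Type} {a b : E → V} {u v : V} :
    (XG a b).Adj u v ↔ u ≠ v ∧ ((∃ e, a e = u ∧ b e = v) ∨ ∃ e, a e = v ∧ b e = u) := by
  simp [XG, SimpleGraph.fromRel_adj]

structure Base {V E : Type} [Fintype V] [Fintype E] (a b : E → V) (g : ℕ) : Prop where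
  conn : (XG a b).Connected
  deg : ∀ (v : V) (S : Finset E), (∀ e ∈ S, a e = v ∨ b e = v) → #S ≤ 200000
  noloop : ∀ e, a e ≠ b e
  nopar : ∀ e e', (a e' = a e ∨ b e' = a e) → (a e' = b e ∨ b e' = b e) → e = e'
  odd : ∀ (u : V) (p : (XG a b).Walk u u), p.length ≤ g → Even p.length
  ind : ∀ U : Finset V, 2 * Fintype.card V ≤ 5 * #U → ∃ e, a e ∈ U ∧ b e ∈ U

section
variable {V E : Type} [Fintype V] [Fintype E] {a b : E → V} {g : ℕ}

lemma Pre.noloop (h : Pre a b (g + 2)) (e : E) : a e ≠ b e := by
  intro he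
  have := h.girth {e} {a e} (by simp) (by simp) (by simp [he])
  simp at this

lemma Pre.nopar (h : Pre a b (g + 2)) (e e' : E) (h1 : a e' = a e ∨ b e' = a e)
    (h2 : a e' = b e ∨ b e' = b e) : e = e' := by
  by_contra hne
  have h3 := h.noloop e
  have h4 := h.noloop e'
  have := h.girth {e, e'} {a e, b e} (by simp) (by rw [card_pair hne]; omega) (by
    intro x hx
    simp only [mem_insert, mem_singleton] at hx ⊢
    rcases hx with rfl | rfl
    · simp
    · rcases h1 with h1 | h1 <;> rcases h2 with h2 | h2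
      · exact absurd (h1.symm.trans h2) h3
      · exact ⟨Or.inl h1, Or.inr h2⟩
      · exact ⟨Or.inr h2, Or.inl h1⟩
      · exact absurd (h1.symm.trans h2) h3)
  rw [card_pair hne, card_pair h3] at this
  omega

lemma Pre.nocycle (h : Pre a b g) (u : V) (c : (XG a b).Walk u u) (hc : c.IsCycle) :
    g < c.length := by
  by_contra hle
  push Not at hle
  have h1 : ∀ s ∈ c.edges, ∃ e, s(a e, b e) = s := by
    intro s hs
    induction s using Sym2.ind with
    | _ x y =>
      have := c.adj_of_mem_edges hs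
      rcases (XG_adj.1 this).2 with ⟨e, rfl, rfl⟩ | ⟨e, rfl, rfl⟩
      · exact ⟨e, rfl⟩
      · exact ⟨e, Sym2.eq_swap⟩
  have h3 := hc.three_le_length
  have hne : Nonempty E := by
    have h4 : 0 < c.edges.length := by rw [SimpleGraph.Walk.length_edges]; omega
    obtain ⟨s, hs⟩ := List.exists_mem_of_length_pos h4
    exact ⟨(h1 s hs).choose⟩
  choose! f hf using h1
  have hnd : c.edges.Nodup := hc.edges_nodup
  have hinj : Set.InjOn f (c.edges.toFinset : Set (Sym2 V)) := by
    intro s hs t ht hst
    simp only [List.coe_toFinset, Set.mem_setOf_eq] at hs ht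
    rw [← hf s hs, ← hf t ht, hst]
  have hF : #(c.edges.toFinset.image f) = c.length := by
    rw [card_image_of_injOn hinj, List.toFinset_card_of_nodup hnd, SimpleGraph.Walk.length_edges]
  have hU : #(c.support.tail.toFinset) = c.length := by
    rw [List.toFinset_card_of_nodup hc.support_nodup, List.length_tail,
      SimpleGraph.Walk.length_support]
    simp
  have hsup : ∀ x ∈ c.support, x ∈ c.support.tail := by
    intro x hx
    rcases c with _ | ⟨hadj, p⟩
    · simp at h3
    · simp only [SimpleGraph.Walk.support_cons, List.mem_cons, List.tail_cons] at hx ⊢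
      rcases hx with rfl | hx
      · exact p.end_mem_support
      · exact hx
  have := h.girth (c.edges.toFinset.image f) c.support.tail.toFinset
    (by rw [← card_pos, hF]; omega) (by omega) (by
      intro e he
      obtain ⟨s, hs, rfl⟩ := mem_image.1 he
      rw [List.mem_toFinset] at hs
      have h5 := hf s hs
      rw [← h5] at hs
      exact ⟨List.mem_toFinset.2 (hsup _ (c.fst_mem_support_of_mem_edges hs)),
        List.mem_toFinset.2 (hsup _ (c.snd_mem_support_of_mem_edges hs))⟩)
  omega

lemma Pre.odd (h : Pre a b g) (u : V) (p : (XG a b).Walk u u) (hp : p.length ≤ g) :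
    Even p.length := by
  let G' : SimpleGraph V := SimpleGraph.fromEdgeSet {s | s ∈ p.edges}
  have hle : G' ≤ XG a b := by
    intro x y hxy
    rw [SimpleGraph.fromEdgeSet_adj] at hxy
    exact p.adj_of_mem_edges hxy.1
  have hsub : ∀ s ∈ p.edges, s ∈ G'.edgeSet := by
    intro s hs
    rw [SimpleGraph.edgeSet_fromEdgeSet]
    exact ⟨hs, SimpleGraph.not_isDiag_of_mem_edgeSet _ (p.edges_subset_edgeSet hs)⟩
  have hac : G'.IsAcyclic := by
    intro v c hc
    have h1 := h.nocycle v (c.mapLe hle) (hc.mapLe hle)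
    have h2 : c.edges ⊆ p.edges := by
      intro s hs
      have := c.edges_subset_edgeSet hs
      rw [SimpleGraph.edgeSet_fromEdgeSet] at this
      exact this.1
    have h3 := (List.subperm_of_subset hc.edges_nodup h2).length_le
    rw [SimpleGraph.Walk.length_edges, SimpleGraph.Walk.length_edges] at h3
    simp only [SimpleGraph.Walk.length_map] at h1
    omega
  have := SimpleGraph.two_colorable_iff_forall_loop_even.1 hac.colorable_two u (p.transfer G' hsub)
  rwa [SimpleGraph.Walk.length_transfer] at this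

lemma Pre.comp (h : Pre a b g) : ∃ K : (XG a b).ConnectedComponent, ∀ U : Finset V,
    (∀ v ∈ U, (XG a b).connectedComponentMk v = K) →
    2 * #{v | (XG a b).connectedComponentMk v = K} ≤ 5 * #U → ∃ e, a e ∈ U ∧ b e ∈ U := by
  by_contra hcon
  push Not at hcon
  choose U hU1 hU2 hU3 using hcon
  let c := (XG a b).connectedComponentMk
  let W : Finset V := {v | v ∈ U (c v)}
  have h1 : #W = ∑ K ∈ univ.image c, #{v ∈ W | c v = K} :=
    card_eq_sum_card_fiberwise (fun v _ => by simp)
  have h2 : #(univ : Finset V) = ∑ K ∈ univ.image c, #{v ∈ univ | c v = K} :=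
    card_eq_sum_card_fiberwise (fun v _ => by simp)
  have h3 : ∀ K, ({v ∈ W | c v = K} : Finset V) = U K := by
    intro K
    ext v
    simp only [W, mem_filter, mem_univ, true_and]
    constructor
    · rintro ⟨h4, rfl⟩; exact h4
    · intro h4
      have := hU1 K v h4
      refine ⟨?_, this⟩
      change v ∈ U ((XG a b).connectedComponentMk v)
      rwa [this]
  obtain ⟨e, he1, he2⟩ := h.ind W (by
    rw [← card_univ, h1, h2, mul_sum, mul_sum]
    refine sum_le_sum fun K _ => ?_
    rw [h3]
    exact hU2 K)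
  simp only [W, mem_filter, mem_univ, true_and] at he1 he2
  have h5 : c (b e) = c (a e) := by
    by_cases hab : a e = b e
    · rw [hab]
    · exact SimpleGraph.ConnectedComponent.sound
        (SimpleGraph.Adj.reachable (XG_adj.2 ⟨Ne.symm hab, Or.inr ⟨e, rfl, rfl⟩⟩))
  rw [h5] at he2
  exact hU3 _ e he1 he2

end

theorem exists_base (g : ℕ) : ∃ (V E : Type) (_ : Fintype V) (_ : Fintype E) (a b : E → V),
    Base a b g := by
  obtain ⟨N, D, a, b, h⟩ := exists_pre (g + 2)
  obtain ⟨K, hK⟩ := h.comp
  have hb : ∀ e, (XG a b).connectedComponentMk (a e) = K →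
      (XG a b).connectedComponentMk (b e) = K := by
    intro e he
    rw [← he]
    exact SimpleGraph.ConnectedComponent.sound
      (SimpleGraph.Adj.reachable (XG_adj.2 ⟨Ne.symm (h.noloop e), Or.inr ⟨e, rfl, rfl⟩⟩))
  let V' := {v // (XG a b).connectedComponentMk v = K}
  let E' := {e // (XG a b).connectedComponentMk (a e) = K}
  let a' : E' → V' := fun e => ⟨a e.1, e.2⟩
  let b' : E' → V' := fun e => ⟨b e.1, hb e.1 e.2⟩
  have hadj : ∀ u v : V', (XG a' b').Adj u v ↔ (XG a b).Adj u.1 v.1 := by
    intro u v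
    rw [XG_adj, XG_adj]
    constructor
    · rintro ⟨h1, ⟨e, rfl, rfl⟩ | ⟨e, rfl, rfl⟩⟩
      · exact ⟨fun h2 => h1 (Subtype.ext h2), Or.inl ⟨e.1, rfl, rfl⟩⟩
      · exact ⟨fun h2 => h1 (Subtype.ext h2), Or.inr ⟨e.1, rfl, rfl⟩⟩
    · rintro ⟨h1, ⟨e, h2, h3⟩ | ⟨e, h2, h3⟩⟩
      · refine ⟨fun h4 => h1 (congrArg Subtype.val h4), Or.inl ⟨⟨e, by rw [h2]; exact u.2⟩,
          Subtype.ext h2, Subtype.ext h3⟩⟩
      · refine ⟨fun h4 => h1 (congrArg Subtype.val h4), Or.inr ⟨⟨e, by rw [h2]; exact v.2⟩,
          Subtype.ext h2, Subtype.ext h3⟩⟩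
  refine ⟨V', E', inferInstance, inferInstance, a', b', ?_, ?_, ?_, ?_, ?_, ?_⟩
  · have key : ∀ (u v : Fin N) (p : (XG a b).Walk u v) (hu : _) (hv : _),
        (XG a' b').Reachable ⟨u, hu⟩ ⟨v, hv⟩ := by
      intro u v p
      induction p with
      | nil => intro hu hv; rfl
      | cons hadj' p ih =>
        intro hu hv
        rename_i x y z
        have hy : (XG a b).connectedComponentMk y = K := by
          rw [← hu]
          exact SimpleGraph.ConnectedComponent.sound hadj'.symm.reachable
        exact ((hadj ⟨x, hu⟩ ⟨y, hy⟩).2 hadj').reachable.trans (ih hy hv)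
    obtain ⟨v0, hv0⟩ := K.exists_rep
    have : Nonempty V' := ⟨⟨v0, hv0⟩⟩
    refine ⟨fun u v => ?_⟩
    have : (XG a b).Reachable u.1 v.1 :=
      SimpleGraph.ConnectedComponent.exact (u.2.trans v.2.symm)
    obtain ⟨p⟩ := this
    exact key _ _ p u.2 v.2
  · intro v S hS
    have := h.deg v.1 (S.map (Function.Embedding.subtype _)) (by
      intro e he
      obtain ⟨x, hx, rfl⟩ := mem_map.1 he
      rcases hS x hx with h1 | h1
      · exact Or.inl (congrArg Subtype.val h1)
      · exact Or.inr (congrArg Subtype.val h1))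
    rwa [card_map] at this
  · intro e he
    exact h.noloop e.1 (congrArg Subtype.val he)
  · intro e e' h1 h2
    refine Subtype.ext (h.nopar e.1 e'.1 ?_ ?_)
    · exact h1.imp (congrArg Subtype.val) (congrArg Subtype.val)
    · exact h2.imp (congrArg Subtype.val) (congrArg Subtype.val)
  · intro u p hp
    let φ : XG a' b' →g XG a b := ⟨Subtype.val, fun {x y} hxy => (hadj x y).1 hxy⟩
    have := h.odd u.1 (p.map φ) (by rw [SimpleGraph.Walk.length_map]; omega)
    rwa [SimpleGraph.Walk.length_map] at this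
  · intro U hU
    obtain ⟨e, he1, he2⟩ := hK (U.map (Function.Embedding.subtype _)) (by
      intro v hv
      obtain ⟨x, _, rfl⟩ := mem_map.1 hv
      exact x.2) (by
      rw [card_map]
      rwa [Fintype.card_subtype] at hU)
    obtain ⟨x, hx, hx'⟩ := mem_map.1 he1
    obtain ⟨y, hy, hy'⟩ := mem_map.1 he2
    simp only [Function.Embedding.subtype_apply] at hx' hy'
    refine ⟨⟨e, by rw [← hx']; exact x.2⟩, ?_, ?_⟩
    · convert hx using 1
      exact Subtype.ext hx'.symm
    · convert hy using 1
      exact Subtype.ext hy'.symm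

end Pool.Agent.H274Z.RW
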