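import Mathlib

set_option autoImplicit false

namespace Pool.Agent.H274Z.RW

open Classical

def BallIso {W : Type} (G : SimpleGraph W) (r k : ℕ) (F : SimpleGraph (Fin k)) (o : Fin k)
    (v : W) : Prop :=
  ∃ e : {w : W // G.dist v w ≤ r} ≃ Fin k,
    (∀ a : {w : W // G.dist v w ≤ r}, (a.1 = v ↔ e a = o)) ∧
    (∀ a b : {w : W // G.dist v w ≤ r}, (G.Adj a.1 b.1 ↔ F.Adj (e a) (e b)))

structure IsCov {W' W : Type} (A : SimpleGraph W') (B : SimpleGraph W) (π : W' → W) : Prop where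
  hom : ∀ x y, A.Adj x y → B.Adj (π x) (π y)
  lift : ∀ x z, B.Adj (π x) z → ∃ y, A.Adj x y ∧ π y = z

section cov
variable {W' W : Type} {A : SimpleGraph W'} {B : SimpleGraph W} {π : W' → W}

lemma IsCov.dist_le (h : IsCov A B π) (hA : A.Connected) (x y : W') :
    B.dist (π x) (π y) ≤ A.dist x y := by
  obtain ⟨p, hp⟩ := hA.exists_walk_length_eq_dist x y
  let φ : A →g B := ⟨π, fun {u v} huv => h.hom u v huv⟩
  have := SimpleGraph.dist_le (p.map φ)
  rw [SimpleGraph.Walk.length_map, hp] at this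
  exact this

lemma IsCov.lift_walk (h : IsCov A B π) : ∀ (u z : W) (q : B.Walk u z) (x : W'), π x = u →
    ∃ y, π y = z ∧ ∃ p : A.Walk x y, p.length = q.length := by
  intro u z q
  induction q with
  | nil => intro x hx; exact ⟨x, hx, SimpleGraph.Walk.nil, rfl⟩
  | cons hadj q ih =>
    intro x hx
    obtain ⟨y, hy1, hy2⟩ := h.lift x _ (hx ▸ hadj)
    obtain ⟨y', hy', p, hp⟩ := ih y hy2
    exact ⟨y', hy', SimpleGraph.Walk.cons hy1 p, by simp [hp]⟩

lemma IsCov.ball (h : IsCov A B π) (hA : A.Connected) (hB : B.Connected) (r : ℕ)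
    (inj : ∀ x y, π x = π y → A.dist x y ≤ 2 * r + 1 → x = y) (k : ℕ) (F : SimpleGraph (Fin k))
    (o : Fin k) (v : W') : BallIso A r k F o v ↔ BallIso B r k F o (π v) := by
  let f : {w : W' // A.dist v w ≤ r} → {w : W // B.dist (π v) w ≤ r} :=
    fun a => ⟨π a.1, (h.dist_le hA v a.1).trans a.2⟩
  have tri : ∀ a b : {w : W' // A.dist v w ≤ r}, A.dist a.1 b.1 ≤ 2 * r := by
    intro a b
    have h1 := hA.dist_triangle (u := a.1) (v := v) (w := b.1)
    have h2 := a.2
    have h3 := b.2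
    rw [SimpleGraph.dist_comm] at h2
    omega
  have hinj : Function.Injective f := by
    intro a b hab
    exact Subtype.ext (inj _ _ (congrArg Subtype.val hab) ((tri a b).trans (Nat.le_succ _)))
  have hsurj : Function.Surjective f := by
    intro z
    obtain ⟨q, hq⟩ := hB.exists_walk_length_eq_dist (π v) z.1
    obtain ⟨y, hy, p, hp⟩ := h.lift_walk _ _ q v rfl
    refine ⟨⟨y, ?_⟩, Subtype.ext hy⟩
    have := SimpleGraph.dist_le p
    have h2 := z.2
    omega
  let ε := Equiv.ofBijective f ⟨hinj, hsurj⟩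
  have hε : ∀ a, (ε a).1 = π a.1 := fun a => rfl
  have hroot : ∀ a : {w : W' // A.dist v w ≤ r}, a.1 = v ↔ (ε a).1 = π v := by
    intro a
    rw [hε]
    refine ⟨fun h1 => by rw [h1], fun h1 => inj _ _ h1 ?_⟩
    have := a.2
    rw [SimpleGraph.dist_comm] at this
    omega
  have hadj : ∀ a b : {w : W' // A.dist v w ≤ r}, A.Adj a.1 b.1 ↔ B.Adj (ε a).1 (ε b).1 := by
    intro a b
    rw [hε, hε]
    refine ⟨h.hom _ _, fun h1 => ?_⟩
    obtain ⟨y, hy1, hy2⟩ := h.lift _ _ h1
    have h2 : y = b.1 := by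
      refine inj _ _ hy2 ?_
      have h3 := hA.dist_triangle (u := y) (v := a.1) (w := b.1)
      have h4 : A.dist y a.1 = 1 := SimpleGraph.dist_eq_one_iff_adj.2 hy1.symm
      have h5 := tri a b
      omega
    rwa [← h2]
  constructor
  · rintro ⟨e, he1, he2⟩
    refine ⟨ε.symm.trans e, fun z => ?_, fun z z' => ?_⟩
    · obtain ⟨a, rfl⟩ := ε.surjective z
      rw [← hroot, he1]; simp
    · obtain ⟨a, rfl⟩ := ε.surjective z
      obtain ⟨b, rfl⟩ := ε.surjective z'
      rw [← hadj, he2]; simp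
  · rintro ⟨e, he1, he2⟩
    refine ⟨ε.trans e, fun a => ?_, fun a b => ?_⟩
    · rw [hroot, he1]; simp
    · rw [hadj, he2]; simp

end cov

/-- Every edge of `G` joins vertices at distance at most two in `H`. -/
def Loc {W : Type} (G H : SimpleGraph W) : Prop :=
  ∀ x y, G.Adj x y → H.Adj x y ∨ ∃ z, H.Adj x z ∧ H.Adj z y

lemma Loc.walk {W : Type} {G H : SimpleGraph W} (h : Loc G H) {u v : W} (p : G.Walk u v) :
    ∃ q : H.Walk u v, q.length ≤ 2 * p.length := by
  induction p with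
  | nil => exact ⟨SimpleGraph.Walk.nil, by simp⟩
  | cons hadj p ih =>
    obtain ⟨q, hq⟩ := ih
    rcases h _ _ hadj with h1 | ⟨z, h1, h2⟩
    · exact ⟨SimpleGraph.Walk.cons h1 q, by simp; omega⟩
    · exact ⟨SimpleGraph.Walk.cons h1 (SimpleGraph.Walk.cons h2 q), by simp; omega⟩

lemma Loc.conn {W : Type} {G H : SimpleGraph W} (h : Loc G H) (hG : G.Connected) :
    H.Connected := by
  have := hG.nonempty
  refine ⟨fun u v => ?_⟩
  obtain ⟨p⟩ := hG.preconnected u v
  obtain ⟨q, -⟩ := h.walk p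
  exact ⟨q⟩

lemma Loc.dist_le {W : Type} {G H : SimpleGraph W} (h : Loc G H) (hG : G.Connected) (u v : W) :
    H.dist u v ≤ 2 * G.dist u v := by
  obtain ⟨p, hp⟩ := hG.exists_walk_length_eq_dist u v
  obtain ⟨q, hq⟩ := h.walk p
  have := SimpleGraph.dist_le q
  omega

lemma loc_of_dist {W : Type} {G H : SimpleGraph W} (hH : H.Connected)
    (h : ∀ u v, H.dist u v ≤ 2 * G.dist u v) : Loc G H := by
  intro x y hxy
  have h1 := h x y
  rw [SimpleGraph.dist_eq_one_iff_adj.2 hxy] at h1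
  obtain ⟨p, hp⟩ := hH.exists_walk_length_eq_dist x y
  rw [← hp] at h1
  rcases p with _ | ⟨h2, _ | ⟨h3, _ | ⟨h4, p⟩⟩⟩
  · exact absurd rfl hxy.ne
  · exact Or.inl h2
  · exact Or.inr ⟨_, h2, h3⟩
  · simp at h1

abbrev FG := Σ N : ℕ, SimpleGraph (Fin N)

noncomputable def frac (z : FG) (r k : ℕ) (F : SimpleGraph (Fin k)) (o : Fin k) : ℝ :=
  (({v : Fin z.1 | BallIso z.2 r k F o v}.ncard : ℕ) : ℝ) / (z.1 : ℝ)

noncomputable def cost (z : FG) : ℝ :=
  sInf {x : ℝ | ∃ H : SimpleGraph (Fin z.1), H.Connected ∧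
    (∀ u v : Fin z.1, ((H.dist u v : ℝ) ≤ 2 * (z.2.dist u v : ℝ)) ∧
      ((z.2.dist u v : ℝ) ≤ 2 * (H.dist u v : ℝ))) ∧
    x = (H.edgeSet.ncard : ℝ) / (z.1 : ℝ)}

section pack
variable {W : Type} [Fintype W]

noncomputable def toFin (G : SimpleGraph W) : SimpleGraph (Fin (Fintype.card W)) :=
  G.comap (Fintype.equivFin W).symm

noncomputable def pack (G : SimpleGraph W) : FG := ⟨Fintype.card W, toFin G⟩

noncomputable def toFinIso (G : SimpleGraph W) : toFin G ≃g G :=
  SimpleGraph.Iso.comap (Fintype.equivFin W).symm G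

lemma toFin_conn {G : SimpleGraph W} (h : G.Connected) : (toFin G).Connected :=
  (toFinIso G).connected_iff.2 h

lemma toFin_deg (G : SimpleGraph W) (D : ℕ) (h : ∀ v, (G.neighborSet v).ncard ≤ D)
    (v : Fin (Fintype.card W)) : ((toFin G).neighborSet v).ncard ≤ D := by
  have := Set.ncard_congr' ((toFinIso G).mapNeighborSet v)
  rw [this]
  exact h _

lemma toFin_edges (G : SimpleGraph W) : (toFin G).edgeSet.ncard = G.edgeSet.ncard :=
  Set.ncard_congr' (toFinIso G).mapEdgeSet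

lemma toFin_cov (G : SimpleGraph W) : IsCov (toFin G) G (Fintype.equivFin W).symm := by
  refine ⟨fun x y h => h, fun x z h => ⟨Fintype.equivFin W z, ?_, by simp⟩⟩
  simpa [toFin] using h

lemma frac_pack {G : SimpleGraph W} (hG : G.Connected) (r k : ℕ) (F : SimpleGraph (Fin k))
    (o : Fin k) : frac (pack G) r k F o =
      (({v : W | BallIso G r k F o v}.ncard : ℕ) : ℝ) / (Fintype.card W : ℝ) := by
  unfold frac pack
  congr 2
  have h1 : {v : Fin (Fintype.card W) | BallIso (toFin G) r k F o v} =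
      (Fintype.equivFin W).symm ⁻¹' {v : W | BallIso G r k F o v} := by
    ext v
    exact (toFin_cov G).ball (toFin_conn hG) hG r
      (fun x y hxy _ => (Fintype.equivFin W).symm.injective hxy) k F o v
  simp only
  rw [h1, Set.ncard_preimage_of_injective_subset_range (Fintype.equivFin W).symm.injective
    (by simp)]

lemma toFin_loc {G H : SimpleGraph W} (h : Loc G H) : Loc (toFin G) (toFin H) := by
  intro x y hxy
  rcases h _ _ hxy with h1 | ⟨z, h1, h2⟩
  · exact Or.inl h1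
  · refine Or.inr ⟨Fintype.equivFin W z, ?_, ?_⟩
    · simpa [toFin] using h1
    · simpa [toFin] using h2

lemma loc_toFin {G H : SimpleGraph W} (h : Loc (toFin G) (toFin H)) : Loc G H := by
  intro x y hxy
  rcases h (Fintype.equivFin W x) (Fintype.equivFin W y) (by simpa [toFin] using hxy) with
    h1 | ⟨z, h1, h2⟩
  · exact Or.inl (by simpa [toFin] using h1)
  · refine Or.inr ⟨(Fintype.equivFin W).symm z, ?_, ?_⟩
    · simpa [toFin] using h1
    · simpa [toFin] using h2

lemma mem_costSet {G H : SimpleGraph W} (hG : G.Connected) (h1 : Loc G H) (h2 : Loc H G) :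
    (H.edgeSet.ncard : ℝ) / (Fintype.card W : ℝ) ∈
    {x : ℝ | ∃ H : SimpleGraph (Fin (pack G).1), H.Connected ∧
    (∀ u v : Fin (pack G).1, ((H.dist u v : ℝ) ≤ 2 * ((pack G).2.dist u v : ℝ)) ∧
      (((pack G).2.dist u v : ℝ) ≤ 2 * (H.dist u v : ℝ))) ∧
    x = (H.edgeSet.ncard : ℝ) / ((pack G).1 : ℝ)} := by
  have hH := h1.conn hG
  refine ⟨toFin H, toFin_conn hH, fun u v => ⟨?_, ?_⟩, ?_⟩
  · exact_mod_cast (toFin_loc h1).dist_le (toFin_conn hG) u v
  · exact_mod_cast (toFin_loc h2).dist_le (toFin_conn hH) u v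
  · have := toFin_edges H
    exact congrArg (fun t : ℕ => (t : ℝ) / (Fintype.card W : ℝ)) this.symm

lemma cost_le {G H : SimpleGraph W} (hG : G.Connected) (h1 : Loc G H) (h2 : Loc H G) :
    cost (pack G) ≤ (H.edgeSet.ncard : ℝ) / (Fintype.card W : ℝ) := by
  refine csInf_le ⟨0, ?_⟩ (mem_costSet hG h1 h2)
  rintro x ⟨H', -, -, rfl⟩
  positivity

lemma le_cost {G : SimpleGraph W} (hG : G.Connected) (m : ℝ)
    (h : ∀ H : SimpleGraph W, Loc G H → Loc H G → m ≤ H.edgeSet.ncard) :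
    m / (Fintype.card W : ℝ) ≤ cost (pack G) := by
  refine le_csInf ⟨_, mem_costSet hG (fun x y h => Or.inl h) (fun x y h => Or.inl h)⟩ ?_
  rintro x ⟨H', hc, hd, rfl⟩
  let H : SimpleGraph W := SimpleGraph.comap (Fintype.equivFin W) H'
  have hH : toFin H = H' := by
    ext u v
    simp [toFin, H]
  have h1 : Loc G H := by
    refine loc_toFin ?_
    rw [hH]
    exact loc_of_dist hc (fun u v => by exact_mod_cast (hd u v).1)
  have h2 : Loc H G := by
    refine loc_toFin ?_
    rw [hH]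
    exact loc_of_dist (toFin_conn hG) (fun u v => by exact_mod_cast (hd u v).2)
  have h3 := h H h1 h2
  rw [← toFin_edges, hH] at h3
  exact div_le_div_of_nonneg_right h3 (Nat.cast_nonneg _)

end pack

lemma ncard_fst {W' W : Type} [Fintype W] (e : W' ≃ W × Bool) (S : Set W) :
    ((fun x => (e x).1) ⁻¹' S).ncard = 2 * S.ncard := by
  have h1 : (fun x => (e x).1) ⁻¹' S = e ⁻¹' (S ×ˢ (Set.univ : Set Bool)) := by
    ext x; simp
  rw [h1, Set.ncard_preimage_of_injective_subset_range e.injective (by simp), Set.ncard_prod,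
    Set.ncard_univ]
  simp [mul_comm]

end Pool.Agent.H274Z.RW
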