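import Pool.Agent.H274Z.RW.Low

set_option autoImplicit false

namespace Pool.Agent.H274Z.RW

open Finset
open Classical

section
variable {V E : Type}

/-- Tail map of the bipartite double cover. -/
def da (a b : E → V) : E × Bool → V × Bool
  | (e, false) => (a e, false)
  | (e, true) => (b e, false)

/-- Head map of the bipartite double cover. -/
def db (a b : E → V) : E × Bool → V × Bool
  | (e, false) => (b e, true)
  | (e, true) => (a e, true)

def dEquiv (V E : Type) : GW (V × Bool) (E × Bool) ≃ GW V E × Bool where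
  toFun
    | Sum.inl x => (Sum.inl (x.1.1, x.2), x.1.2)
    | Sum.inr y => (Sum.inr (y.1.1, y.2), y.1.2)
  invFun
    | (Sum.inl x, c) => Sum.inl ((x.1, c), x.2)
    | (Sum.inr y, c) => Sum.inr ((y.1, c), y.2)
  left_inv := by rintro (x | x) <;> rfl
  right_inv := by rintro ⟨x | x, c⟩ <;> rfl

variable {a b : E → V}

lemma d_inc (y : E × Bool) (x : V × Bool) (h : da a b y = x ∨ db a b y = x) :
    a y.1 = x.1 ∨ b y.1 = x.1 := by
  rcases y with ⟨e, _ | _⟩ <;> rcases h with rfl | rfl <;> simp [da, db]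

lemma d_lift1 (e : E) (x : V × Bool) (h : a e = x.1 ∨ b e = x.1) :
    ∃ c, da a b (e, c) = x ∨ db a b (e, c) = x := by
  rcases x with ⟨v, _ | _⟩ <;> rcases h with h | h <;> simp only at h <;> subst h
  · exact ⟨false, Or.inl rfl⟩
  · exact ⟨true, Or.inl rfl⟩
  · exact ⟨true, Or.inr rfl⟩
  · exact ⟨false, Or.inr rfl⟩

lemma d_lift2 (y : E × Bool) (v : V) (h : a y.1 = v ∨ b y.1 = v) :
    ∃ c, da a b y = (v, c) ∨ db a b y = (v, c) := by
  rcases y with ⟨e, _ | _⟩ <;> rcases h with h | h <;> simp only at h <;> subst h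
  · exact ⟨false, Or.inl rfl⟩
  · exact ⟨true, Or.inr rfl⟩
  · exact ⟨true, Or.inr rfl⟩
  · exact ⟨false, Or.inl rfl⟩

lemma d_cov : IsCov (Gad (da a b) (db a b)) (Gad a b) (fun x => (dEquiv V E x).1) := by
  constructor
  · rintro (x | x) (y | y) h
    · exact False.elim h
    · exact d_inc y.1 x.1 h
    · exact d_inc x.1 y.1 h
    · exact False.elim h
  · rintro (x | x) (z | z) h
    · exact False.elim h
    · obtain ⟨c, hc⟩ := d_lift1 z.1 x.1 h
      exact ⟨Sum.inr ((z.1, c), z.2), hc, rfl⟩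
    · obtain ⟨c, hc⟩ := d_lift2 x.1 z.1 h
      exact ⟨Sum.inl ((z.1, c), z.2), hc, rfl⟩
    · exact False.elim h

lemma d_noloop (y : E × Bool) : da a b y ≠ db a b y := by
  rcases y with ⟨e, _ | _⟩ <;> simp [da, db]

/-- A walk of bounded length whose parity matches the change of sheet. -/
def Rch (a b : E → V) (l : ℕ) (x y : V × Bool) : Prop :=
  ∃ p : (XG a b).Walk x.1 y.1, p.length ≤ l ∧ (Even p.length ↔ x.2 = y.2)

lemma Rch.refl (x : V × Bool) : Rch a b 0 x x := ⟨SimpleGraph.Walk.nil, le_rfl, by simp⟩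

lemma Rch.mono {l l' : ℕ} {x y : V × Bool} (h : Rch a b l x y) (hl : l ≤ l') : Rch a b l' x y := by
  obtain ⟨p, h1, h2⟩ := h
  exact ⟨p, h1.trans hl, h2⟩

lemma Rch.trans {l l' : ℕ} {x y z : V × Bool} (h : Rch a b l x y) (h' : Rch a b l' y z) :
    Rch a b (l + l') x z := by
  obtain ⟨p, h1, h2⟩ := h
  obtain ⟨q, h3, h4⟩ := h'
  refine ⟨p.append q, by rw [SimpleGraph.Walk.length_append]; omega, ?_⟩
  rw [SimpleGraph.Walk.length_append, Nat.even_add, h2, h4]
  cases x.2 <;> cases y.2 <;> cases z.2 <;> simp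

lemma Rch.symm {l : ℕ} {x y : V × Bool} (h : Rch a b l x y) : Rch a b l y x := by
  obtain ⟨p, h1, h2⟩ := h
  refine ⟨p.reverse, by rwa [SimpleGraph.Walk.length_reverse], ?_⟩
  rw [SimpleGraph.Walk.length_reverse, h2, eq_comm]

lemma rch_edge (hl : ∀ e, a e ≠ b e) (e : E) (c : Bool) : Rch a b 1 (a e, c) (b e, !c) :=
  ⟨SimpleGraph.Walk.cons (XG_adj.2 ⟨hl e, Or.inl ⟨e, rfl, rfl⟩⟩) SimpleGraph.Walk.nil, by simp,
    by simp⟩

lemma rch_d (hl : ∀ e, a e ≠ b e) (y : E × Bool) : Rch a b 1 (da a b y) (db a b y) := by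
  rcases y with ⟨e, _ | _⟩
  · exact rch_edge hl e false
  · exact (rch_edge hl e true).symm

def base (a b : E → V) : GW (V × Bool) (E × Bool) → V × Bool
  | Sum.inl x => x.1
  | Sum.inr y => da a b y.1

lemma base_adj (hl : ∀ e, a e ≠ b e) (x y : GW (V × Bool) (E × Bool))
    (h : (Gad (da a b) (db a b)).Adj x y) : Rch a b 1 (base a b x) (base a b y) := by
  have key : ∀ (u : V × Bool) (y : E × Bool), (da a b y = u ∨ db a b y = u) →
      Rch a b 1 (da a b y) u := by
    rintro u y (rfl | rfl)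
    · exact (Rch.refl _).mono (by omega)
    · exact rch_d hl y
  rcases x with x | x <;> rcases y with y | y
  · exact False.elim h
  · exact (key _ _ h).symm
  · exact key _ _ h
  · exact False.elim h

lemma base_walk (hl : ∀ e, a e ≠ b e) (x y : GW (V × Bool) (E × Bool))
    (p : (Gad (da a b) (db a b)).Walk x y) : Rch a b p.length (base a b x) (base a b y) := by
  induction p with
  | nil => exact Rch.refl _
  | cons h p ih =>
    rw [SimpleGraph.Walk.length_cons, add_comm]
    exact (base_adj hl _ _ h).trans ih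

variable [Fintype V] [Fintype E] {g : ℕ}

lemma Base.no_flip (hB : Base a b g) (v : V) (c : Bool) : ¬ Rch a b g (v, c) (v, !c) := by
  rintro ⟨p, h1, h2⟩
  have := h2.1 (hB.odd v p h1)
  simp at this

lemma Base.exists_odd (hB : Base a b g) : ∃ (u : V) (p : (XG a b).Walk u u), ¬ Even p.length := by
  by_contra hcon
  push Not at hcon
  obtain ⟨C⟩ := SimpleGraph.two_colorable_iff_forall_loop_even.2 hcon
  have h1 : ∀ i : Fin 2, ¬ 2 * Fintype.card V ≤ 5 * #{v | C v = i} := by
    intro i h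
    obtain ⟨e, he1, he2⟩ := hB.ind _ h
    simp only [mem_filter, mem_univ, true_and] at he1 he2
    exact C.valid (XG_adj.2 ⟨hB.noloop e, Or.inl ⟨e, rfl, rfl⟩⟩) (he1.trans he2.symm)
  have h2 : #(univ : Finset V) = ∑ i ∈ (univ : Finset (Fin 2)), #{v ∈ univ | C v = i} :=
    card_eq_sum_card_fiberwise (fun v _ => by simp)
  rw [Fin.sum_univ_two, card_univ] at h2
  have h3 := h1 0
  have h4 := h1 1
  omega

lemma Base.hi (hB : Base a b g) (v : V) : ∃ e, a e = v ∨ b e = v := by
  obtain ⟨e0, -⟩ := hB.ind univ (by rw [card_univ]; omega)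
  by_cases h : a e0 = v
  · exact ⟨e0, Or.inl h⟩
  obtain ⟨p⟩ := hB.conn.preconnected v (a e0)
  cases p with
  | nil => exact absurd rfl h
  | cons hadj p =>
    rcases (XG_adj.1 hadj).2 with ⟨e, h1, -⟩ | ⟨e, -, h1⟩
    · exact ⟨e, Or.inl h1⟩
    · exact ⟨e, Or.inr h1⟩

omit [Fintype V] [Fintype E] in
lemma d_walk (u v : V) (p : (XG a b).Walk u v) : ∀ c c' : Bool, (Even p.length ↔ c = c') →
    (XG (da a b) (db a b)).Reachable (u, c) (v, c') := by
  induction p with
  | nil =>
    intro c c' h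
    have : c = c' := h.1 (by simp)
    subst this
    rfl
  | cons hadj p ih =>
    intro c c' h
    rename_i x y z
    have h1 : (XG (da a b) (db a b)).Adj (x, c) (y, !c) := by
      refine XG_adj.2 ⟨by cases c <;> simp, ?_⟩
      rcases (XG_adj.1 hadj).2 with ⟨e, rfl, rfl⟩ | ⟨e, rfl, rfl⟩ <;> cases c
      · exact Or.inl ⟨(e, false), rfl, rfl⟩
      · exact Or.inr ⟨(e, true), rfl, rfl⟩
      · exact Or.inl ⟨(e, true), rfl, rfl⟩
      · exact Or.inr ⟨(e, false), rfl, rfl⟩
    refine h1.reachable.trans (ih _ _ ?_)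
    rw [SimpleGraph.Walk.length_cons, Nat.even_add_one] at h
    cases c <;> cases c' <;> simp_all

lemma Base.d_conn (hB : Base a b g) : (XG (da a b) (db a b)).Connected := by
  obtain ⟨u0, p0, hp0⟩ := hB.exists_odd
  have : Nonempty (V × Bool) := ⟨(u0, false)⟩
  have key : ∀ x : V × Bool, (XG (da a b) (db a b)).Reachable x (u0, false) := by
    rintro ⟨v, c⟩
    obtain ⟨p⟩ := hB.conn.preconnected v u0
    by_cases h : Even p.length ↔ c = false
    · exact d_walk _ _ p _ _ h
    · refine d_walk _ _ (p.append p0) _ _ ?_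
      rw [SimpleGraph.Walk.length_append, Nat.even_add]
      tauto
  exact ⟨fun x y => (key x).trans (key y).symm⟩

lemma Base.gconn (hB : Base a b g) : (Gad a b).Connected := Gad_conn hB.conn hB.hi

lemma Base.gdconn (hB : Base a b g) : (Gad (da a b) (db a b)).Connected := by
  refine Gad_conn hB.d_conn fun x => ?_
  obtain ⟨e, he⟩ := hB.hi x.1
  obtain ⟨c, hc⟩ := d_lift1 e x he
  exact ⟨_, hc⟩

lemma Base.d_inj (hB : Base a b g) (r : ℕ) (hr : 2 * r + 2 ≤ g) (x y : GW (V × Bool) (E × Bool))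
    (h : (dEquiv V E x).1 = (dEquiv V E y).1)
    (hd : (Gad (da a b) (db a b)).dist x y ≤ 2 * r + 1) : x = y := by
  obtain ⟨p, hp⟩ := hB.gdconn.exists_walk_length_eq_dist x y
  have h1 := (base_walk hB.noloop x y p).mono (hp.le.trans hd)
  rcases x with ⟨⟨v, c⟩, i⟩ | ⟨⟨e, c⟩, j⟩ <;> rcases y with ⟨⟨v', c'⟩, i'⟩ | ⟨⟨e', c'⟩, j'⟩ <;>
    simp only [dEquiv, Equiv.coe_fn_mk, Sum.inl.injEq, Sum.inr.injEq, Prod.mk.injEq,
      reduceCtorEq] at h
  · obtain ⟨rfl, rfl⟩ := h
    by_cases hc : c = c'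
    · rw [hc]
    · have : c' = !c := by cases c <;> cases c' <;> simp_all
      subst this
      exact absurd (h1.mono (by omega)) (hB.no_flip v c)
  · obtain ⟨rfl, rfl⟩ := h
    cases c <;> cases c'
    · rfl
    · have h2 : Rch a b (2 * r + 1) (a e, false) (b e, false) := h1
      have h3 := h2.trans (rch_edge hB.noloop e true).symm
      exact absurd (h3.mono (by omega)) (hB.no_flip (a e) false)
    · have h2 : Rch a b (2 * r + 1) (b e, false) (a e, false) := h1
      have h3 := h2.symm.trans (rch_edge hB.noloop e true).symm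
      exact absurd (h3.mono (by omega)) (hB.no_flip (a e) false)
    · rfl

lemma Base.frac_eq (hB : Base a b g) (r : ℕ) (hr : 2 * r + 2 ≤ g) (k : ℕ)
    (F : SimpleGraph (Fin k)) (o : Fin k) :
    frac (pack (Gad (da a b) (db a b))) r k F o = frac (pack (Gad a b)) r k F o := by
  rw [frac_pack hB.gdconn, frac_pack hB.gconn]
  have h1 : {v | BallIso (Gad (da a b) (db a b)) r k F o v} =
      (fun x => (dEquiv V E x).1) ⁻¹' {v | BallIso (Gad a b) r k F o v} := by
    ext v
    exact d_cov.ball hB.gdconn hB.gconn r (hB.d_inj r hr) k F o v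
  rw [h1, ncard_fst, Fintype.card_congr (dEquiv V E), Fintype.card_prod, Fintype.card_bool]
  push_cast
  rw [mul_comm (Fintype.card (GW V E) : ℝ) 2, mul_div_mul_left _ _ (by norm_num)]

lemma Base.gdeg (hB : Base a b g) (x : GW V E) : ((Gad a b).neighborSet x).ncard ≤ 2400000 :=
  (Gad_deg hB.deg x).trans (by norm_num)

lemma Base.gddeg (hB : Base a b g) (x : GW (V × Bool) (E × Bool)) :
    ((Gad (da a b) (db a b)).neighborSet x).ncard ≤ 2400000 := by
  have h1 : (Gad (da a b) (db a b)).neighborSet x ⊆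
      (fun x => (dEquiv V E x).1) ⁻¹' (Gad a b).neighborSet (dEquiv V E x).1 :=
    fun y hy => d_cov.hom _ _ hy
  refine (Set.ncard_le_ncard h1 (Set.toFinite _)).trans ?_
  rw [ncard_fst]
  have := Gad_deg hB.deg (dEquiv V E x).1
  omega

lemma Base.card_E (hB : Base a b g) : Fintype.card E ≤ 200000 * Fintype.card V := by
  have h1 : #(univ : Finset E) = ∑ v ∈ (univ : Finset V), #{e ∈ univ | a e = v} :=
    card_eq_sum_card_fiberwise (fun v _ => by simp)
  rw [← card_univ, h1]
  calc ∑ v ∈ (univ : Finset V), #{e ∈ univ | a e = v} ≤ ∑ _v ∈ (univ : Finset V), 200000 :=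
        sum_le_sum fun v _ => hB.deg v _ (fun e he => Or.inl (mem_filter.1 he).2)
    _ = _ := by simp [mul_comm]

lemma Base.gap (hB : Base a b g) :
    cost (pack (Gad (da a b) (db a b))) + 1 / 12000020 ≤ cost (pack (Gad a b)) := by
  obtain ⟨H, h1, h2, h3⟩ := Gad_upper (a := da a b) (b := db a b) d_noloop
    (univ.image (fun v : V => (v, false))) (by
      rintro ⟨e, _ | _⟩
      · exact mem_image.2 ⟨a e, mem_univ _, rfl⟩
      · exact mem_image.2 ⟨b e, mem_univ _, rfl⟩)
  have h4 := cost_le hB.gdconn h1 h2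
  have h5 := le_cost hB.gconn ((40 * Fintype.card E + 3 * Fintype.card V) / 5) (by
    intro H' k1 k2
    have := Gad_lower hB k1 k2
    rw [div_le_iff₀ (by norm_num)]
    exact_mod_cast (by omega : 40 * Fintype.card E + 3 * Fintype.card V ≤ H'.edgeSet.ncard * 5))
  have h6 : #(univ.image (fun v : V => (v, false))) ≤ Fintype.card V :=
    card_image_le.trans (by simp)
  have h7 : (H.edgeSet.ncard : ℝ) ≤ 16 * Fintype.card E + Fintype.card V := by
    rw [Fintype.card_prod, Fintype.card_bool] at h3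
    exact_mod_cast (by omega : H.edgeSet.ncard ≤ 16 * Fintype.card E + Fintype.card V)
  have c1 : (Fintype.card (GW V E) : ℝ) = 2 * Fintype.card V + 6 * Fintype.card E := by
    simp only [Fintype.card_sum, Fintype.card_prod, Fintype.card_bool, Fintype.card_fin]
    push_cast; ring
  have c2 : (Fintype.card (GW (V × Bool) (E × Bool)) : ℝ) =
      2 * (2 * Fintype.card V + 6 * Fintype.card E) := by
    simp only [Fintype.card_sum, Fintype.card_prod, Fintype.card_bool, Fintype.card_fin]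
    push_cast; ring
  have hV : (0 : ℝ) < Fintype.card V := by
    have := hB.conn.nonempty
    exact_mod_cast Fintype.card_pos
  have hE : (Fintype.card E : ℝ) ≤ 200000 * Fintype.card V := by exact_mod_cast hB.card_E
  have hE0 : (0 : ℝ) ≤ Fintype.card E := Nat.cast_nonneg _
  rw [c2] at h4
  rw [c1] at h5
  generalize (Fintype.card V : ℝ) = n at *
  generalize (Fintype.card E : ℝ) = m at *
  have hM : 0 < 2 * n + 6 * m := by positivity
  have h8 : (H.edgeSet.ncard : ℝ) / (2 * (2 * n + 6 * m)) ≤ (8 * m + n / 2) / (2 * n + 6 * m) := by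
    rw [div_le_div_iff₀ (by positivity) hM]
    nlinarith
  have h9 : (8 * m + n / 2) / (2 * n + 6 * m) + 1 / 12000020 ≤
      (40 * m + 3 * n) / 5 / (2 * n + 6 * m) := by
    have h10 : (1 : ℝ) / 12000020 ≤ (n / 10) / (2 * n + 6 * m) := by
      rw [div_le_div_iff₀ (by norm_num) hM]
      nlinarith
    have h11 : (40 * m + 3 * n) / 5 / (2 * n + 6 * m) =
        (8 * m + n / 2) / (2 * n + 6 * m) + (n / 10) / (2 * n + 6 * m) := by
      rw [← add_div]; congr 1; ring
    linarith
  linarith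

end

theorem exists_pair (g : ℕ) : ∃ X Y : FG, X.2.Connected ∧ Y.2.Connected ∧
    (∀ v, (X.2.neighborSet v).ncard ≤ 2400000) ∧ (∀ v, (Y.2.neighborSet v).ncard ≤ 2400000) ∧
    (∀ r, 2 * r + 2 ≤ g → ∀ k F o, frac Y r k F o = frac X r k F o) ∧
    cost Y + 1 / 12000020 ≤ cost X := by
  obtain ⟨V, E, _, _, a, b, hB⟩ := exists_base g
  exact ⟨pack (Gad a b), pack (Gad (da a b) (db a b)), toFin_conn hB.gconn, toFin_conn hB.gdconn,
    toFin_deg _ _ hB.gdeg, toFin_deg _ _ hB.gddeg, fun r hr k F o => hB.frac_eq r hr k F o, hB.gap⟩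

end Pool.Agent.H274Z.RW
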