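import Pool.Agent.H274Z.RW.Base
import Pool.Agent.H274Z.RW.Cover

set_option autoImplicit false

namespace Pool.Agent.H274Z.RW

open Finset
open Classical

/-- Vertices of the gadget graph: two copies of each vertex, six midpoints for each edge. -/
abbrev GW (V E : Type) := (V × Bool) ⊕ (E × Fin 6)

def gAdj {V E : Type} (a b : E → V) : GW V E → GW V E → Prop
  | Sum.inl x, Sum.inr y => a y.1 = x.1 ∨ b y.1 = x.1
  | Sum.inr y, Sum.inl x => a y.1 = x.1 ∨ b y.1 = x.1
  | Sum.inl _, Sum.inl _ => False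
  | Sum.inr _, Sum.inr _ => False

def Gad {V E : Type} (a b : E → V) : SimpleGraph (GW V E) where
  Adj := gAdj a b
  symm := ⟨by rintro (x | x) (y | y) h <;> exact h⟩
  loopless := ⟨by rintro (x | x) h <;> exact h⟩

section
variable {V E : Type} {a b : E → V}

@[simp] lemma Gad_ll (x y : V × Bool) : ¬ (Gad a b).Adj (Sum.inl x) (Sum.inl y) := fun h => h
@[simp] lemma Gad_rr (x y : E × Fin 6) : ¬ (Gad a b).Adj (Sum.inr x) (Sum.inr y) := fun h => h
@[simp] lemma Gad_lr (x : V × Bool) (y : E × Fin 6) :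
    (Gad a b).Adj (Sum.inl x) (Sum.inr y) ↔ (a y.1 = x.1 ∨ b y.1 = x.1) := Iff.rfl
@[simp] lemma Gad_rl (x : V × Bool) (y : E × Fin 6) :
    (Gad a b).Adj (Sum.inr y) (Sum.inl x) ↔ (a y.1 = x.1 ∨ b y.1 = x.1) := Iff.rfl

lemma Gad_conn (hc : (XG a b).Connected) (hi : ∀ v, ∃ e, a e = v ∨ b e = v) :
    (Gad a b).Connected := by
  have h1 : ∀ (e : E) (u v : V) (i j : Bool), (a e = u ∨ b e = u) → (a e = v ∨ b e = v) →
      (Gad a b).Reachable (Sum.inl (u, i)) (Sum.inl (v, j)) := by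
    intro e u v i j hu hv
    have h2 : (Gad a b).Adj (Sum.inl (u, i)) (Sum.inr (e, 0)) := hu
    have h3 : (Gad a b).Adj (Sum.inr (e, 0)) (Sum.inl (v, j)) := hv
    exact h2.reachable.trans h3.reachable
  have h2 : ∀ (u v : V) (p : (XG a b).Walk u v) (i j : Bool),
      (Gad a b).Reachable (Sum.inl (u, i)) (Sum.inl (v, j)) := by
    intro u v p
    induction p with
    | nil =>
      intro i j
      rename_i u
      obtain ⟨e, he⟩ := hi u
      exact h1 e _ _ i j he he
    | cons hadj p ih =>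
      intro i j
      refine SimpleGraph.Reachable.trans ?_ (ih i j)
      rcases (XG_adj.1 hadj).2 with ⟨e, h3, h4⟩ | ⟨e, h3, h4⟩
      · exact h1 e _ _ i i (Or.inl h3) (Or.inr h4)
      · exact h1 e _ _ i i (Or.inr h4) (Or.inl h3)
  have h3 : ∀ x : GW V E, ∃ u, (Gad a b).Reachable x (Sum.inl (u, false)) := by
    rintro (⟨u, i⟩ | ⟨e, j⟩)
    · exact ⟨u, h2 u u SimpleGraph.Walk.nil i false⟩
    · exact ⟨a e, SimpleGraph.Adj.reachable (Or.inl rfl)⟩
  obtain ⟨v0⟩ := hc.nonempty
  have : Nonempty (GW V E) := ⟨Sum.inl (v0, false)⟩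
  refine ⟨fun x y => ?_⟩
  obtain ⟨u, hu⟩ := h3 x
  obtain ⟨v, hv⟩ := h3 y
  obtain ⟨p⟩ := hc.preconnected u v
  exact hu.trans ((h2 u v p false false).trans hv.symm)

lemma Gad_deg [Fintype V] [Fintype E]
    (hd : ∀ (v : V) (S : Finset E), (∀ e ∈ S, a e = v ∨ b e = v) → #S ≤ 200000)
    (x : GW V E) : ((Gad a b).neighborSet x).ncard ≤ 1200000 := by
  rcases x with ⟨v, i⟩ | ⟨e, j⟩
  · have h1 : (Gad a b).neighborSet (Sum.inl (v, i)) ⊆
        ((((univ.filter (fun e => a e = v ∨ b e = v)) ×ˢ (univ : Finset (Fin 6))).image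
          Sum.inr : Finset (GW V E)) : Set (GW V E)) := by
      rintro (y | y) hy
      · exact False.elim hy
      · simp only [coe_image, Set.mem_image, mem_coe, mem_product, mem_filter, mem_univ, true_and,
          and_true]
        exact ⟨y, hy, rfl⟩
    refine (Set.ncard_le_ncard h1 (Finset.finite_toSet _)).trans ?_
    rw [Set.ncard_coe_finset]
    refine card_image_le.trans ?_
    rw [card_product, card_univ, Fintype.card_fin]
    have := hd v (univ.filter (fun e => a e = v ∨ b e = v)) (fun e he => (mem_filter.1 he).2)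
    omega
  · have h1 : (Gad a b).neighborSet (Sum.inr (e, j)) ⊆
        (((({a e, b e} : Finset V) ×ˢ (univ : Finset Bool)).image
          Sum.inl : Finset (GW V E)) : Set (GW V E)) := by
      rintro (y | y) hy
      · simp only [coe_image, Set.mem_image, mem_coe, mem_product, mem_univ, and_true, mem_insert,
          mem_singleton]
        refine ⟨y, ?_, rfl⟩
        rcases hy with h | h
        · exact Or.inl h.symm
        · exact Or.inr h.symm
      · exact False.elim hy
    refine (Set.ncard_le_ncard h1 (Finset.finite_toSet _)).trans ?_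
    rw [Set.ncard_coe_finset]
    refine card_image_le.trans ?_
    rw [card_product, card_univ, Fintype.card_bool]
    have : #({a e, b e} : Finset V) ≤ 2 := card_le_two
    omega

/-- The cheap rewiring with hubs at the tails of the edges. -/
lemma Gad_upper [Fintype V] [Fintype E] (hl : ∀ e, a e ≠ b e) (S : Finset V) (hS : ∀ e, a e ∈ S) :
    ∃ H : SimpleGraph (GW V E), Loc (Gad a b) H ∧ Loc H (Gad a b) ∧
      H.edgeSet.ncard ≤ 8 * Fintype.card E + #S := by
  let f1 : V → Sym2 (GW V E) := fun u => s(Sum.inl (u, false), Sum.inl (u, true))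
  let f2 : E × Fin 6 → Sym2 (GW V E) := fun y => s(Sum.inl (a y.1, false), Sum.inr y)
  let f3 : E × Bool → Sym2 (GW V E) := fun y => s(Sum.inl (a y.1, false), Sum.inl (b y.1, y.2))
  let T : Finset (Sym2 (GW V E)) :=
    ((univ.image a).image f1 ∪ univ.image f2) ∪ univ.image f3
  let H : SimpleGraph (GW V E) := SimpleGraph.fromEdgeSet (T : Set (Sym2 (GW V E)))
  have a1 : ∀ e, H.Adj (Sum.inl (a e, false)) (Sum.inl (a e, true)) := by
    intro e
    rw [SimpleGraph.fromEdgeSet_adj]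
    refine ⟨?_, by simp⟩
    exact mem_coe.2 (mem_union_left _ (mem_union_left _
      (mem_image.2 ⟨a e, mem_image.2 ⟨e, mem_univ _, rfl⟩, rfl⟩)))
  have a2 : ∀ e j, H.Adj (Sum.inl (a e, false)) (Sum.inr (e, j)) := by
    intro e j
    rw [SimpleGraph.fromEdgeSet_adj]
    refine ⟨?_, by simp⟩
    exact mem_coe.2 (mem_union_left _ (mem_union_right _ (mem_image.2 ⟨(e, j), mem_univ _, rfl⟩)))
  have a3 : ∀ e i, H.Adj (Sum.inl (a e, false)) (Sum.inl (b e, i)) := by
    intro e i
    rw [SimpleGraph.fromEdgeSet_adj]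
    refine ⟨?_, by simp [hl e]⟩
    exact mem_coe.2 (mem_union_right _ (mem_image.2 ⟨(e, i), mem_univ _, rfl⟩))
  have k1 : ∀ (x : V × Bool) (y : E × Fin 6), (a y.1 = x.1 ∨ b y.1 = x.1) →
      H.Adj (Sum.inl x) (Sum.inr y) ∨ ∃ z, H.Adj (Sum.inl x) z ∧ H.Adj z (Sum.inr y) := by
    rintro ⟨u, i⟩ ⟨e, j⟩ (h | h)
    · obtain rfl : a e = u := h
      cases i
      · exact Or.inl (a2 e j)
      · exact Or.inr ⟨_, (a1 e).symm, a2 e j⟩
    · obtain rfl : b e = u := h
      exact Or.inr ⟨_, (a3 e i).symm, a2 e j⟩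
  have k2 : ∀ s ∈ T, ∃ x y, s = s(x, y) ∧
      ((Gad a b).Adj x y ∨ ∃ z, (Gad a b).Adj x z ∧ (Gad a b).Adj z y) := by
    intro s hs
    rcases mem_union.1 hs with hs | hs
    · rcases mem_union.1 hs with hs | hs
      · obtain ⟨u, hu, rfl⟩ := mem_image.1 hs
        obtain ⟨e, -, rfl⟩ := mem_image.1 hu
        exact ⟨_, _, rfl, Or.inr ⟨Sum.inr (e, 0), Or.inl rfl, Or.inl rfl⟩⟩
      · obtain ⟨y, -, rfl⟩ := mem_image.1 hs
        exact ⟨_, _, rfl, Or.inl (Or.inl rfl)⟩
    · obtain ⟨y, -, rfl⟩ := mem_image.1 hs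
      exact ⟨_, _, rfl, Or.inr ⟨Sum.inr (y.1, 0), Or.inl rfl, Or.inr rfl⟩⟩
  refine ⟨H, ?_, ?_, ?_⟩
  · rintro (x | x) (y | y) h
    · exact absurd h (Gad_ll _ _)
    · exact k1 x y h
    · rcases k1 y x h with h1 | ⟨z, h1, h2⟩
      · exact Or.inl h1.symm
      · exact Or.inr ⟨z, h2.symm, h1.symm⟩
    · exact absurd h (Gad_rr _ _)
  · intro x y h
    rw [SimpleGraph.fromEdgeSet_adj] at h
    obtain ⟨x', y', h1, h2⟩ := k2 _ (mem_coe.1 h.1)
    rcases Sym2.eq_iff.1 h1 with ⟨rfl, rfl⟩ | ⟨rfl, rfl⟩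
    · exact h2
    · rcases h2 with h2 | ⟨z, h2, h3⟩
      · exact Or.inl h2.symm
      · exact Or.inr ⟨z, h3.symm, h2.symm⟩
  · have h1 : H.edgeSet ⊆ (T : Set (Sym2 (GW V E))) := by
      rw [SimpleGraph.edgeSet_fromEdgeSet]
      exact Set.sdiff_subset
    refine (Set.ncard_le_ncard h1 (Finset.finite_toSet _)).trans ?_
    rw [Set.ncard_coe_finset]
    have b1 : #((univ.image a).image f1) ≤ #S :=
      card_image_le.trans (card_le_card (fun u hu => by
        obtain ⟨e, -, rfl⟩ := mem_image.1 hu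
        exact hS e))
    have b2 : #(univ.image f2) ≤ Fintype.card E * 6 :=
      card_image_le.trans (by simp)
    have b3 : #(univ.image f3) ≤ Fintype.card E * 2 :=
      card_image_le.trans (by simp)
    have b4 := card_union_le ((univ.image a).image f1 ∪ univ.image f2) (univ.image f3)
    have b5 := card_union_le ((univ.image a).image f1) (univ.image f2)
    change #(((univ.image a).image f1 ∪ univ.image f2) ∪ univ.image f3) ≤ _
    omega

end

end Pool.Agent.H274Z.RW
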