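import Pool.Agent.H274Z.RW.Gad

set_option autoImplicit false

namespace Pool.Agent.H274Z.RW

open Finset
open Classical

section
variable {V E : Type} [Fintype V] [Fintype E] {a b : E → V}

def rich (H : SimpleGraph (GW V E)) (x : GW V E) : Prop :=
  ∃ c c' : V × Bool, c ≠ c' ∧ H.Adj x (Sum.inl c) ∧ H.Adj x (Sum.inl c')

noncomputable def wt (H : SimpleGraph (GW V E)) : GW V E → GW V E → ℕ
  | Sum.inl _, Sum.inl _ => 1
  | Sum.inl _, Sum.inr _ => 0
  | Sum.inr _, Sum.inl _ => 2
  | Sum.inr y, Sum.inr y' => if rich H (Sum.inr y) then 0 else if rich H (Sum.inr y') then 2 else 1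

noncomputable def ch (H : SimpleGraph (GW V E)) (x : GW V E) : ℕ :=
  ∑ y, if H.Adj x y then wt H x y else 0

noncomputable def nn (H : SimpleGraph (GW V E)) (p : V × V) : ℕ :=
  ∑ i : Bool, ∑ j : Bool, if H.Adj (Sum.inl (p.1, i)) (Sum.inl (p.2, j)) then 1 else 0

def Sel (H : SimpleGraph (GW V E)) (u : V) : Prop :=
  H.Adj (Sum.inl (u, false)) (Sum.inl (u, true))

variable {H : SimpleGraph (GW V E)}

omit [Fintype V] [Fintype E] in
lemma wt_add (x y : GW V E) : wt H x y + wt H y x ≤ 2 := by
  rcases x with x | x <;> rcases y with y | y <;> simp only [wt]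
  · omega
  · omega
  · omega
  · split_ifs <;> omega

lemma sum_ch : ∑ x, ch H x ≤ 2 * H.edgeSet.ncard := by
  have h1 : ∑ x, ch H x = ∑ x, ∑ y, if H.Adj x y then wt H y x else 0 := by
    unfold ch
    rw [sum_comm]
    refine sum_congr rfl fun x _ => sum_congr rfl fun y _ => ?_
    rw [if_congr (H.adj_comm y x) rfl rfl]
  have h2 : ∑ x, ch H x + ∑ x, ch H x ≤ ∑ x, 2 * H.degree x := by
    nth_rewrite 2 [h1]
    unfold ch
    rw [← sum_add_distrib]
    refine sum_le_sum fun x _ => ?_
    rw [← sum_add_distrib, ← SimpleGraph.card_neighborFinset_eq_degree,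
      SimpleGraph.neighborFinset_eq_filter, card_filter, mul_sum]
    refine sum_le_sum fun y _ => ?_
    have := wt_add (H := H) x y
    split_ifs <;> omega
  rw [← mul_sum, SimpleGraph.sum_degrees_eq_twice_card_edges] at h2
  have h3 : H.edgeSet.ncard = #H.edgeFinset := by
    rw [← SimpleGraph.coe_edgeFinset, Set.ncard_coe_finset]
  omega

lemma le_ch (x : GW V E) (T : Finset (GW V E)) (hT : ∀ z ∈ T, H.Adj x z) :
    ∑ z ∈ T, wt H x z ≤ ch H x := by
  unfold ch
  calc ∑ z ∈ T, wt H x z = ∑ z ∈ T, if H.Adj x z then wt H x z else 0 :=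
        sum_congr rfl fun z hz => by rw [if_pos (hT z hz)]
    _ ≤ _ := sum_le_sum_of_subset (subset_univ _)

lemma mid (hl : ∀ e, a e ≠ b e) (h1 : Loc (Gad a b) H) (y : E × Fin 6) :
    3 ≤ ch H (Sum.inr y) ∨ (2 ≤ ch H (Sum.inr y) ∧ ∃ z, ∀ z', H.Adj (Sum.inr y) z' → z' = z) := by
  by_cases hr : rich H (Sum.inr y)
  · obtain ⟨c, c', hne, h2, h3⟩ := hr
    have := le_ch (H := H) (Sum.inr y) {Sum.inl c, Sum.inl c'} (by
      intro z hz
      simp only [mem_insert, mem_singleton] at hz
      rcases hz with rfl | rfl <;> assumption)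
    rw [sum_pair (by simpa using hne)] at this
    simp only [wt] at this
    left; omega
  have hw : ∀ z, 1 ≤ wt H (Sum.inr y) z := by
    rintro (z | z)
    · simp [wt]
    · simp only [wt, if_neg hr]
      split_ifs <;> omega
  by_cases h2 : ∃ z0, H.Adj (Sum.inr y) z0 ∧ wt H (Sum.inr y) z0 = 2
  · obtain ⟨z0, h2, h3⟩ := h2
    by_cases h4 : ∀ z', H.Adj (Sum.inr y) z' → z' = z0
    · right
      refine ⟨?_, z0, h4⟩
      have := le_ch (H := H) (Sum.inr y) {z0} (by simpa using h2)
      rw [sum_singleton] at this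
      omega
    · push Not at h4
      obtain ⟨z1, h4, h5⟩ := h4
      have := le_ch (H := H) (Sum.inr y) {z1, z0} (by
        intro z hz
        simp only [mem_insert, mem_singleton] at hz
        rcases hz with rfl | rfl <;> assumption)
      rw [sum_pair h5] at this
      have := hw z1
      left; omega
  · push Not at h2
    have key : ∀ c : V × Bool, (a y.1 = c.1 ∨ b y.1 = c.1) →
        ∃ z, H.Adj (Sum.inr y) z ∧ H.Adj z (Sum.inl c) ∧ ¬ rich H z := by
      intro c hc
      rcases h1 (Sum.inr y) (Sum.inl c) hc with h3 | ⟨z, h3, h4⟩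
      · exact absurd rfl (h2 _ h3)
      · refine ⟨z, h3, h4, fun h5 => h2 z h3 ?_⟩
        rcases z with z | z
        · rfl
        · simp only [wt, if_neg hr, if_pos h5]
    obtain ⟨z1, p1, q1, r1⟩ := key (a y.1, false) (Or.inl rfl)
    obtain ⟨z2, p2, q2, r2⟩ := key (a y.1, true) (Or.inl rfl)
    obtain ⟨z3, p3, q3, r3⟩ := key (b y.1, false) (Or.inr rfl)
    have n12 : z1 ≠ z2 := by
      rintro rfl
      exact r1 ⟨_, _, by simp, q1, q2⟩
    have n13 : z1 ≠ z3 := by
      rintro rfl
      exact r1 ⟨_, _, by simp [hl y.1], q1, q3⟩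
    have n23 : z2 ≠ z3 := by
      rintro rfl
      exact r2 ⟨_, _, by simp, q2, q3⟩
    have := le_ch (H := H) (Sum.inr y) {z1, z2, z3} (by
      intro z hz
      simp only [mem_insert, mem_singleton] at hz
      rcases hz with rfl | rfl | rfl <;> assumption)
    rw [sum_insert (by simp [n12, n13]), sum_pair n23] at this
    have w1 := hw z1
    have w2 := hw z2
    have w3 := hw z3
    left; omega

omit [Fintype V] [Fintype E] in
lemma near (h2 : Loc H (Gad a b)) (y : E × Fin 6) (c : V × Bool)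
    (h : H.Adj (Sum.inr y) (Sum.inl c)) : a y.1 = c.1 ∨ b y.1 = c.1 := by
  rcases h2 _ _ h with h3 | ⟨z | z, h3, h4⟩
  · exact h3
  · exact False.elim h4
  · exact False.elim h3

omit [Fintype V] [Fintype E] in
lemma nn_two (u v : V) (i : Bool) (h : ∀ j, H.Adj (Sum.inl (u, i)) (Sum.inl (v, j))) :
    2 ≤ nn H (u, v) ∧ 2 ≤ nn H (v, u) := by
  have h0 := h false
  have h1 := h true
  have h0' := h0.symm
  have h1' := h1.symm
  unfold nn
  simp only [Fintype.sum_bool]
  cases i
  · simp only [if_pos h0, if_pos h1, if_pos h0', if_pos h1']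
    omega
  · simp only [if_pos h0, if_pos h1, if_pos h0', if_pos h1']
    omega

omit [Fintype V] [Fintype E] in
lemma nn_sel (u : V) (h : Sel H u) : 2 ≤ nn H (u, u) := by
  have h0 : H.Adj (Sum.inl (u, false)) (Sum.inl (u, true)) := h
  have h1 := h0.symm
  unfold nn
  simp only [Fintype.sum_bool, if_pos h0, if_pos h1]
  omega

lemma edge_bound (hl : ∀ e, a e ≠ b e)
    (hp : ∀ e e', (a e' = a e ∨ b e' = a e) → (a e' = b e ∨ b e' = b e) → e = e')
    (h1 : Loc (Gad a b) H) (h2 : Loc H (Gad a b)) (e : E) :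
    16 + (if Sel H (a e) ∨ Sel H (b e) then 0 else 2) ≤
      ∑ j : Fin 6, ch H (Sum.inr (e, j)) + (nn H (a e, b e) + nn H (b e, a e)) := by
  have htwo : ∀ j : Fin 6, 2 ≤ ch H (Sum.inr (e, j)) := by
    intro j
    rcases mid hl h1 (e, j) with h | h
    · omega
    · exact h.1
  by_cases h3 : ∀ j : Fin 6, 3 ≤ ch H (Sum.inr (e, j))
  · have : ∑ _j : Fin 6, 3 ≤ ∑ j : Fin 6, ch H (Sum.inr (e, j)) := sum_le_sum fun j _ => h3 j
    simp only [sum_const, card_univ, Fintype.card_fin, smul_eq_mul] at this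
    split_ifs <;> omega
  push Not at h3
  obtain ⟨j0, h3⟩ := h3
  obtain ⟨-, z, hz⟩ := (mid hl h1 (e, j0)).resolve_left (by omega)
  have key : ∀ c : V × Bool, (a e = c.1 ∨ b e = c.1) →
      H.Adj (Sum.inr (e, j0)) z ∧ (Sum.inl c = z ∨ H.Adj z (Sum.inl c)) := by
    intro c hc
    rcases h1 (Sum.inr (e, j0)) (Sum.inl c) hc with h4 | ⟨z', h4, h5⟩
    · have := hz _ h4
      exact ⟨this ▸ h4, Or.inl this⟩
    · have := hz _ h4
      exact ⟨this ▸ h4, Or.inr (this ▸ h5)⟩
  have hadj := (key (a e, false) (Or.inl rfl)).1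
  have h12 : ∑ _j : Fin 6, 2 ≤ ∑ j : Fin 6, ch H (Sum.inr (e, j)) := sum_le_sum fun j _ => htwo j
  simp only [sum_const, card_univ, Fintype.card_fin, smul_eq_mul] at h12
  rcases z with ⟨u, i⟩ | ⟨e', j'⟩
  · have sel : ∀ w, (a e = w ∨ b e = w) → w = u → Sel H w := by
      intro w hw hwu
      subst hwu
      have := ((key (w, !i) hw).2).resolve_left (by simp)
      cases i
      · exact this
      · exact this.symm
    rcases near h2 _ _ hadj with h4 | h4
    · simp only at h4
      have h5 : Sel H (a e) := sel _ (Or.inl rfl) h4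
      have h6 := nn_two (H := H) (a e) (b e) i (fun j => by
        have := ((key (b e, j) (Or.inr rfl)).2).resolve_left (by
          simp only [Sum.inl.injEq, Prod.mk.injEq, not_and]
          intro h7
          exact absurd (h4.trans h7.symm) (hl e))
        rw [h4]; exact this)
      rw [if_pos (Or.inl h5)]
      omega
    · simp only at h4
      have h5 : Sel H (b e) := sel _ (Or.inr rfl) h4
      have h6 := nn_two (H := H) (b e) (a e) i (fun j => by
        have := ((key (a e, j) (Or.inl rfl)).2).resolve_left (by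
          simp only [Sum.inl.injEq, Prod.mk.injEq, not_and]
          intro h7
          exact absurd (h7.trans h4.symm) (hl e))
        rw [h4]; exact this)
      rw [if_pos (Or.inr h5)]
      omega
  · have k : ∀ c : V × Bool, (a e = c.1 ∨ b e = c.1) → H.Adj (Sum.inr (e', j')) (Sum.inl c) :=
      fun c hc => ((key c hc).2).resolve_left (by simp)
    have he : e = e' := hp e e' (near h2 _ _ (k (a e, false) (Or.inl rfl)))
      (near h2 _ _ (k (b e, false) (Or.inr rfl)))
    subst he
    have h8 : 8 ≤ ch H (Sum.inr (e, j')) := by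
      have := le_ch (H := H) (Sum.inr (e, j')) {Sum.inl (a e, false), Sum.inl (a e, true),
          Sum.inl (b e, false), Sum.inl (b e, true)} (by
        intro z hz
        simp only [mem_insert, mem_singleton] at hz
        rcases hz with rfl | rfl | rfl | rfl
        · exact k _ (Or.inl rfl)
        · exact k _ (Or.inl rfl)
        · exact k _ (Or.inr rfl)
        · exact k _ (Or.inr rfl))
      rw [sum_insert (by simp [hl e]), sum_insert (by simp [hl e]), sum_pair (by simp)] at this
      simp only [wt] at this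
      omega
    have h9 : ∑ j : Fin 6, (2 + if j = j' then 6 else 0) ≤ ∑ j : Fin 6, ch H (Sum.inr (e, j)) := by
      refine sum_le_sum fun j _ => ?_
      split_ifs with h
      · subst h; omega
      · have := htwo j; omega
    rw [sum_add_distrib] at h9
    simp only [sum_const, card_univ, Fintype.card_fin, smul_eq_mul, sum_ite_eq', mem_univ,
      if_true] at h9
    split_ifs <;> omega

lemma copy_sum : ∑ p : V × V, nn H p ≤ ∑ x : V × Bool, ch H (Sum.inl x) := by
  have h1 : ∀ x : V × Bool, ∑ c : V × Bool, (if H.Adj (Sum.inl x) (Sum.inl c) then 1 else 0) ≤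
      ch H (Sum.inl x) := by
    intro x
    unfold ch
    rw [Fintype.sum_sum_type]
    exact Nat.le_add_right _ _
  refine le_trans (le_of_eq ?_) (sum_le_sum fun x _ => h1 x)
  unfold nn
  simp only [Fintype.sum_prod_type]
  refine sum_congr rfl fun u _ => ?_
  rw [sum_comm]

lemma pair_sum (hl : ∀ e, a e ≠ b e)
    (hp : ∀ e e', (a e' = a e ∨ b e' = a e) → (a e' = b e ∨ b e' = b e) → e = e') :
    ∑ u, nn H (u, u) + ∑ e, (nn H (a e, b e) + nn H (b e, a e)) ≤ ∑ p : V × V, nn H p := by
  let ι : V ⊕ (E ⊕ E) → V × V := Sum.elim (fun u => (u, u))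
    (Sum.elim (fun e => (a e, b e)) (fun e => (b e, a e)))
  have hι : Function.Injective ι := by
    rintro (u | e | e) (u' | e' | e') h <;>
      simp only [ι, Sum.elim_inl, Sum.elim_inr, Prod.mk.injEq] at h
    · rw [h.1]
    · exact absurd (h.1.symm.trans h.2) (hl e')
    · exact absurd (h.2.symm.trans h.1) (hl e')
    · exact absurd (h.1.trans h.2.symm) (hl e)
    · rw [hp e e' (Or.inl h.1.symm) (Or.inr h.2.symm)]
    · have := hp e e' (Or.inr h.1.symm) (Or.inl h.2.symm)
      subst this
      exact absurd h.1 (hl e)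
    · exact absurd (h.2.trans h.1.symm) (hl e)
    · have := hp e e' (Or.inr h.2.symm) (Or.inl h.1.symm)
      subst this
      exact absurd h.2 (hl e)
    · rw [hp e e' (Or.inl h.2.symm) (Or.inr h.1.symm)]
  have h1 : ∑ t, nn H (ι t) = ∑ p ∈ univ.image ι, nn H p :=
    (sum_image (fun x _ y _ h => hι h)).symm
  have h2 : ∑ p ∈ univ.image ι, nn H p ≤ ∑ p : V × V, nn H p :=
    sum_le_sum_of_subset (subset_univ _)
  rw [← h1, Fintype.sum_sum_type, Fintype.sum_sum_type] at h2
  rw [sum_add_distrib]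
  exact h2

theorem Gad_lower {g : ℕ} (hB : Base a b g) (h1 : Loc (Gad a b) H) (h2 : Loc H (Gad a b)) :
    40 * Fintype.card E + 3 * Fintype.card V ≤ 5 * H.edgeSet.ncard := by
  have s1 := sum_ch (H := H)
  rw [Fintype.sum_sum_type] at s1
  have s2 := copy_sum (H := H)
  have s3 := pair_sum (H := H) hB.noloop hB.nopar
  have s4 : ∑ e, (16 + (if Sel H (a e) ∨ Sel H (b e) then 0 else 2)) ≤
      ∑ e, (∑ j : Fin 6, ch H (Sum.inr (e, j)) + (nn H (a e, b e) + nn H (b e, a e))) :=
    sum_le_sum fun e _ => edge_bound hB.noloop hB.nopar h1 h2 e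
  rw [sum_add_distrib, sum_add_distrib, ← Fintype.sum_prod_type' (fun e j => ch H (Sum.inr (e, j)))]
    at s4
  let S : Finset V := {u | Sel H u}
  let U : Finset E := {e | ¬ (Sel H (a e) ∨ Sel H (b e))}
  have s5 : 2 * #S ≤ ∑ u, nn H (u, u) := by
    rw [card_filter, mul_sum]
    refine sum_le_sum fun u _ => ?_
    split_ifs with h
    · exact nn_sel u h
    · omega
  have s6 : ∑ e, (if Sel H (a e) ∨ Sel H (b e) then 0 else 2) = 2 * #U := by
    rw [card_filter, mul_sum]
    refine sum_congr rfl fun e _ => ?_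
    split_ifs <;> simp
  have s7 : ¬ 2 * Fintype.card V ≤ 5 * #((S ∪ U.image a)ᶜ) := by
    intro h
    obtain ⟨e, he1, he2⟩ := hB.ind _ h
    simp only [S, U, mem_compl, mem_union, mem_filter, mem_univ, true_and, mem_image, not_or,
      not_exists, not_and] at he1 he2
    exact he1.2 e ⟨he1.1, he2.1⟩ rfl
  rw [card_compl] at s7
  have s8 := card_union_le S (U.image a)
  have s9 : #(U.image a) ≤ #U := card_image_le
  simp only [sum_const, card_univ, smul_eq_mul, Prod.mk.eta] at s4
  omega

end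

end Pool.Agent.H274Z.RW
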