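import Pool.Agent.H616Z.Coarse.Random

set_option autoImplicit false

namespace Pool.Agent.H274Z.RW

open Finset
open Classical
open Pool.Agent.H616Z.Coarse

variable {N : ℕ}

lemma sum_box (hN : 0 < N) (U : Finset (Fin N)) (h1 : 2 * N ≤ 5 * #U) :
    ∑ ω : Fin (60 * N) → T N, ∏ e, (if ω e ∈ box U then (1 / 2 : ℝ) else 1) ≤
      (1 / 2) ^ (6 * N) * (Fintype.card (T N) : ℝ) ^ (60 * N) := by
  rw [sum_prod_eq (fun _ θ => if θ ∈ box U then (1 / 2 : ℝ) else 1), Finset.prod_const, card_univ,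
    Fintype.card_fin]
  have h3 : ∑ θ : T N, (if θ ∈ box U then (1 / 2 : ℝ) else 1) =
      Fintype.card (T N) - (#(box U) : ℝ) / 2 := by
    have : ∀ θ : T N, (if θ ∈ box U then (1 / 2 : ℝ) else 1) =
        1 - (if θ ∈ box U then (1 : ℝ) else 0) / 2 := by
      intro θ; split_ifs <;> norm_num
    simp only [this]
    rw [Finset.sum_sub_distrib, ← Finset.sum_div, Finset.sum_boole]
    simp
  have h4 : (#(box U) : ℝ) = 3 * (#U : ℝ) ^ 2 := by rw [card_box]; push_cast; ring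
  have h1' : 2 * (N : ℝ) ≤ 5 * #U := by exact_mod_cast h1
  have hN' : (0 : ℝ) < N := by exact_mod_cast hN
  have hM : (Fintype.card (T N) : ℝ) = 3 * N ^ 2 := by rw [card_T]; push_cast; ring
  have h7 : Fintype.card (T N) - (#(box U) : ℝ) / 2 ≤ 23 / 25 * Fintype.card (T N) := by
    rw [hM, h4]
    nlinarith
  have h8 : 0 ≤ Fintype.card (T N) - (#(box U) : ℝ) / 2 := by
    rw [← h3]
    exact Finset.sum_nonneg fun θ _ => by split_ifs <;> norm_num
  rw [h3]
  refine (pow_le_pow_left₀ h8 h7 _).trans ?_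
  rw [mul_pow]
  refine mul_le_mul_of_nonneg_right ?_ (by positivity)
  rw [show 60 * N = 10 * (6 * N) by ring, pow_mul]
  exact pow_le_pow_left₀ (by positivity) (by norm_num) _

lemma exists_omega2 (g : ℕ) : ∃ N : ℕ, g ≤ N ∧ 0 < N ∧ ∃ ω : Fin (60 * N) → T N,
    #(bad1 ω) + #(bad2 g ω) ≤ N ∧ ∀ U : Finset (Fin N), 2 * N ≤ 5 * #U →
      2 * N ≤ #{e | ω e ∈ box U} := by
  obtain ⟨N₀, hN₀⟩ := exists_nat_ge (8 * ∑ k ∈ range (g + 1), (k : ℝ) * (60 * k ^ 2) ^ k)
  set N := N₀ + g + 2 with hNdef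
  have hN2 : 2 ≤ N := by omega
  have hN : 0 < N := by omega
  have hN' : (0 : ℝ) < N := by exact_mod_cast hN
  refine ⟨N, by omega, hN, ?_⟩
  have hT : 0 < Fintype.card (T N) := by rw [card_T]; positivity
  set P : ℝ := (Fintype.card (T N) : ℝ) ^ (60 * N) with hP
  have hP0 : 0 < P := by positivity
  set 𝒲 : Finset (Finset (Fin N)) := {W | 2 * N ≤ 5 * #W} with h𝒲
  have h1 : ∑ ω : Fin (60 * N) → T N, (((#(bad1 ω) : ℝ) + #(bad2 g ω)) / N +
      ∑ W ∈ 𝒲, 2 ^ (2 * N) * ∏ e, (if ω e ∈ box W then (1 / 2 : ℝ) else 1)) <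
      ∑ _ω : Fin (60 * N) → T N, (1 : ℝ) := by
    rw [Finset.sum_add_distrib, ← Finset.sum_div, Finset.sum_add_distrib, Finset.sum_comm,
      Finset.sum_const, card_univ, Fintype.card_fun, Fintype.card_fin, nsmul_eq_mul, mul_one]
    push_cast
    rw [← hP]
    have a1 := sum_bad1 hN2
    have a2 := sum_bad2 hN g
    rw [← hP] at a1 a2
    have a3 : (∑ k ∈ range (g + 1), (k : ℝ) * (60 * k ^ 2) ^ k) ≤ (N : ℝ) / 8 := by
      have : (N₀ : ℝ) ≤ N := by exact_mod_cast (by omega : N₀ ≤ N)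
      linarith
    have a4 : ((∑ ω : Fin (60 * N) → T N, (#(bad1 ω) : ℝ)) +
        ∑ ω : Fin (60 * N) → T N, (#(bad2 g ω) : ℝ)) / N ≤ P / 4 := by
      rw [div_le_iff₀ hN']
      have := mul_le_mul_of_nonneg_right a3 hP0.le
      linarith
    have a5 : ∀ W ∈ 𝒲, ∑ ω : Fin (60 * N) → T N,
        2 ^ (2 * N) * ∏ e, (if ω e ∈ box W then (1 / 2 : ℝ) else 1) ≤
        2 ^ (2 * N) * ((1 / 2) ^ (6 * N) * P) := by
      intro W hW
      simp only [h𝒲, mem_filter, mem_univ, true_and] at hW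
      rw [← Finset.mul_sum]
      exact mul_le_mul_of_nonneg_left (sum_box hN W hW) (by positivity)
    have a6 := Finset.sum_le_sum a5
    rw [Finset.sum_const, nsmul_eq_mul] at a6
    have a7 : (#𝒲 : ℝ) ≤ 2 ^ (3 * N) := by
      have := card_le_univ 𝒲
      rw [Fintype.card_finset, Fintype.card_fin] at this
      have h2 : 2 ^ N ≤ 2 ^ (3 * N) := Nat.pow_le_pow_right (by norm_num) (by omega)
      exact_mod_cast this.trans h2
    have a8 : (#𝒲 : ℝ) * (2 ^ (2 * N) * ((1 / 2) ^ (6 * N) * P)) ≤ P / 2 := by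
      refine (mul_le_mul_of_nonneg_right a7 (by positivity)).trans ?_
      have e1 : (2 : ℝ) ^ (3 * N) * (2 ^ (2 * N) * ((1 / 2) ^ (6 * N) * P)) = (1 / 2) ^ N * P := by
        rw [show 6 * N = 3 * N + 2 * N + N by ring, pow_add, pow_add]
        simp only [one_div, inv_pow]
        field_simp
      rw [e1]
      have e2 : (1 / 2 : ℝ) ^ N ≤ (1 / 2) ^ 1 :=
        pow_le_pow_of_le_one (by norm_num) (by norm_num) hN
      nlinarith
    linarith
  obtain ⟨ω, -, hω⟩ := Finset.exists_lt_of_sum_lt h1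
  have hnn : ∀ W ∈ 𝒲, 0 ≤ 2 ^ (2 * N) * ∏ e, (if ω e ∈ box W then (1 / 2 : ℝ) else 1) :=
    fun W _ => mul_nonneg (by positivity)
      (Finset.prod_nonneg fun e _ => by split_ifs <;> norm_num)
  refine ⟨ω, ?_, fun W hW1 => ?_⟩
  · have b1 := Finset.sum_nonneg hnn
    have b2 : ((#(bad1 ω) : ℝ) + #(bad2 g ω)) / N < 1 := by linarith
    rw [div_lt_one hN'] at b2
    exact_mod_cast b2.le
  · have hW : W ∈ 𝒲 := by simp [h𝒲, hW1]
    have b1 := Finset.single_le_sum hnn hW
    have b2 : 0 ≤ ((#(bad1 ω) : ℝ) + #(bad2 g ω)) / N := by positivity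
    have b3 : 2 ^ (2 * N) * ∏ e, (if ω e ∈ box W then (1 / 2 : ℝ) else 1) < 1 := by linarith
    rw [Finset.prod_ite, Finset.prod_const, Finset.prod_const_one, mul_one, one_div, inv_pow,
      ← div_eq_mul_inv, div_lt_one (by positivity)] at b3
    exact ((pow_lt_pow_iff_right₀ (by norm_num : (1 : ℝ) < 2)).1 b3).le

/-- Multigraph with bounded degree, no short cycles and no large independent set. -/
structure Pre {V E : Type} [Fintype V] [Fintype E] (a b : E → V) (g : ℕ) : Prop where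
  pos : 0 < Fintype.card V
  deg : ∀ (v : V) (S : Finset E), (∀ e ∈ S, a e = v ∨ b e = v) → #S ≤ 200000
  girth : ∀ (F : Finset E) (U : Finset V), F.Nonempty → #F ≤ g → (∀ e ∈ F, a e ∈ U ∧ b e ∈ U) →
    #F < #U
  ind : ∀ U : Finset V, 2 * Fintype.card V ≤ 5 * #U → ∃ e, a e ∈ U ∧ b e ∈ U

theorem exists_pre (g : ℕ) : ∃ (N : ℕ) (D : Finset (Fin (60 * N))) (a b : D → Fin N),
    Pre a b g := by
  obtain ⟨N, hg, hN, ω, h1, h2⟩ := exists_omega2 g
  set D : Finset (Fin (60 * N)) := (bad1 ω ∪ bad2 g ω)ᶜ with hD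
  refine ⟨N, D, fun e => (ω e).1, fun e => (ω e).2.1, ?_, ?_, ?_, ?_⟩
  · simpa using hN
  · intro v S hS
    by_contra hcon
    push Not at hcon
    have h3 : #S ≤ #{e' | ω e' ∈ inc v} := by
      refine card_le_card_of_injOn (fun e => e.1) ?_ (Subtype.val_injective.injOn)
      intro e he
      simpa [inc] using hS e he
    obtain ⟨e, he⟩ : S.Nonempty := by
      rw [← card_pos]; omega
    have h4 : (e : Fin (60 * N)) ∈ bad1 ω := by
      simp only [bad1, mem_filter, mem_univ, true_and]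
      exact ⟨v, by simpa [inc] using hS e he, by omega⟩
    exact mem_compl.1 e.2 (mem_union_left _ h4)
  · intro F U₀ hF hFg hU₀
    by_contra hcon
    push Not at hcon
    obtain ⟨U, hU1, hU2⟩ := Finset.exists_superset_card_eq hcon
      (by rw [Fintype.card_fin]; omega)
    obtain ⟨e, he⟩ := hF
    have h4 : (e : Fin (60 * N)) ∈ bad2 g ω := by
      simp only [bad2, mem_filter, mem_univ, true_and]
      refine ⟨#F, mem_range.2 (by omega), F.map (Function.Embedding.subtype _), by simp, U,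
        by simp [hU2], mem_map.2 ⟨e, he, rfl⟩, ?_⟩
      intro e' he'
      obtain ⟨x, hx, rfl⟩ := mem_map.1 he'
      simp only [H616Z.Coarse.box, mem_product, mem_univ, and_true, Function.Embedding.subtype_apply]
      exact ⟨hU1 (hU₀ x hx).1, hU1 (hU₀ x hx).2⟩
    exact mem_compl.1 e.2 (mem_union_right _ h4)
  · intro U hU
    rw [Fintype.card_fin] at hU
    have h3 := h2 U hU
    by_contra hcon
    push Not at hcon
    have h4 : ({e | ω e ∈ box U} : Finset (Fin (60 * N))) ⊆ (bad1 ω ∪ bad2 g ω) := by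
      intro e he
      by_contra h
      have hD' : e ∈ D := by rw [hD, mem_compl]; exact h
      have h5 := (mem_filter.1 he).2
      simp only [H616Z.Coarse.box, mem_product, mem_univ, and_true] at h5
      exact hcon ⟨e, hD'⟩ h5.1 h5.2
    have h5 := (card_le_card h4).trans (card_union_le _ _)
    omega

end Pool.Agent.H274Z.RW
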